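import Pool.Agent.Work.MP_ef7f46_tn.Interface

/-!
MP_ef7f46_co, project TN, block HOE: Chernoff bound, counting form.
-/

set_option autoImplicit false
open Classical Finset

noncomputable section

namespace TN

theorem hoe_exp_le (x : ℝ) (hx : |x| ≤ 1) : Real.exp x ≤ 1 + x + x ^ 2 := by
  have h := Real.abs_exp_sub_one_sub_id_le hx
  have h2 := (abs_le.1 h).2
  linarith

theorem hoe_ok : Stmt_HOE := by
  intro Q _ _ b f ε hb hf hε hε1
  set q : ℝ := (Fintype.card Q : ℝ) with hq
  have hq0 : 0 < q := by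
    rw [hq]; exact_mod_cast Fintype.card_pos
  set μ : ℝ := (∑ y, f y) / q with hμ
  have hμ0 : 0 ≤ μ := div_nonneg (Finset.sum_nonneg fun y _ => (hf y).1) hq0.le
  have hμ1 : μ ≤ 1 := by
    rw [hμ, div_le_one hq0]
    calc ∑ y, f y ≤ ∑ _y : Q, (1 : ℝ) := Finset.sum_le_sum fun y _ => (hf y).2
      _ = q := by simp [hq]
  set t : ℝ := ε / 4 with ht
  have ht0 : 0 < t := by positivity
  have ht1 : t ≤ 1 := by rw [ht]; linarith
  have hbR : (0 : ℝ) < b := by exact_mod_cast hb
  -- one factor
  have hone : ∑ y, Real.exp (t * (f y - μ)) ≤ q * Real.exp (t ^ 2) := by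
    have h1 : ∀ y, Real.exp (t * (f y - μ)) ≤ 1 + t * (f y - μ) + t ^ 2 := by
      intro y
      have hd : |f y - μ| ≤ 1 := by
        rw [abs_le]
        constructor <;> [linarith [(hf y).1]; linarith [(hf y).2]]
      have hab : |t * (f y - μ)| ≤ t := by
        rw [abs_mul, abs_of_pos ht0]
        exact mul_le_of_le_one_right ht0.le hd
      have h := hoe_exp_le (t * (f y - μ)) (hab.trans ht1)
      have hsq : (t * (f y - μ)) ^ 2 ≤ t ^ 2 := by
        rw [← sq_abs (t * (f y - μ))]
        exact pow_le_pow_left₀ (abs_nonneg _) hab 2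
      linarith
    have hsum : ∑ y, (1 + t * (f y - μ) + t ^ 2) = q * (1 + t ^ 2) := by
      have e1 : ∑ y, (f y - μ) = 0 := by
        rw [Finset.sum_sub_distrib]
        have : ∑ _y : Q, μ = q * μ := by simp [hq]
        rw [this, hμ]
        field_simp
        ring
      rw [Finset.sum_add_distrib, Finset.sum_add_distrib, ← Finset.mul_sum, e1]
      simp only [Finset.sum_const, Finset.card_univ, nsmul_eq_mul]
      rw [← hq]; ring
    calc ∑ y, Real.exp (t * (f y - μ)) ≤ ∑ y, (1 + t * (f y - μ) + t ^ 2) :=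
          Finset.sum_le_sum fun y _ => h1 y
      _ = q * (1 + t ^ 2) := hsum
      _ ≤ q * Real.exp (t ^ 2) := by
          refine mul_le_mul_of_nonneg_left ?_ hq0.le
          have := Real.add_one_le_exp (t ^ 2)
          linarith
  -- the total sum
  have htot : ∑ β : Fin b → Q, Real.exp (t * ∑ j, (f (β j) - μ)) ≤
      q ^ b * Real.exp (t ^ 2 * b) := by
    have e : ∑ β : Fin b → Q, Real.exp (t * ∑ j, (f (β j) - μ)) =
        (∑ y, Real.exp (t * (f y - μ))) ^ b := by
      rw [Fintype.sum_pow]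
      refine Finset.sum_congr rfl fun β _ => ?_
      rw [← Real.exp_sum, Finset.mul_sum]
    rw [e]
    calc (∑ y, Real.exp (t * (f y - μ))) ^ b ≤ (q * Real.exp (t ^ 2)) ^ b :=
          pow_le_pow_left₀ (Finset.sum_nonneg fun y _ => (Real.exp_pos _).le) hone b
      _ = q ^ b * Real.exp (t ^ 2 * b) := by
          rw [mul_pow, ← Real.exp_nat_mul]
          ring_nf
  -- Markov
  set A : Finset (Fin b → Q) := univ.filter (fun β : Fin b → Q =>
      μ + ε / 2 < (∑ j, f (β j)) / b) with hA
  have hmark : (A.card : ℝ) * Real.exp (t * (b * (ε / 2))) ≤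
      ∑ β : Fin b → Q, Real.exp (t * ∑ j, (f (β j) - μ)) := by
    calc (A.card : ℝ) * Real.exp (t * (b * (ε / 2)))
        = ∑ _β ∈ A, Real.exp (t * (b * (ε / 2))) := by simp
      _ ≤ ∑ β ∈ A, Real.exp (t * ∑ j, (f (β j) - μ)) := by
          refine Finset.sum_le_sum fun β hβ => ?_
          have hβ' : μ + ε / 2 < (∑ j, f (β j)) / b := by
            rw [hA, Finset.mem_filter] at hβ
            exact hβ.2
          rw [lt_div_iff₀ hbR] at hβ'
          refine Real.exp_le_exp.2 (mul_le_mul_of_nonneg_left ?_ ht0.le)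
          have : ∑ j : Fin b, (f (β j) - μ) = ∑ j, f (β j) - b * μ := by
            rw [Finset.sum_sub_distrib]; simp
          rw [this]
          nlinarith
      _ ≤ ∑ β : Fin b → Q, Real.exp (t * ∑ j, (f (β j) - μ)) :=
          Finset.sum_le_sum_of_subset_of_nonneg (Finset.subset_univ _)
            fun β _ _ => (Real.exp_pos _).le
  have hE : Real.exp (-(b * ε ^ 2 / 16)) * q ^ b * Real.exp (t * (b * (ε / 2))) =
      q ^ b * Real.exp (t ^ 2 * b) := by
    rw [mul_comm (Real.exp (-(b * ε ^ 2 / 16))) (q ^ b), mul_assoc, ← Real.exp_add]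
    congr 2
    rw [ht]; ring
  have hfin : (A.card : ℝ) * Real.exp (t * (b * (ε / 2))) ≤
      Real.exp (-(b * ε ^ 2 / 16)) * q ^ b * Real.exp (t * (b * (ε / 2))) := by
    rw [hE]; exact hmark.trans htot
  exact le_of_mul_le_mul_right hfin (Real.exp_pos _)

end TN
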